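import Pool.Agent.Lib.OQ.Defs

/-!
# Three curves that meet all lines through the disc (MP_721d21), six directions: statements

THEOREM.  Continuous `γ₁, γ₂, γ₃ : [0,1] → ℝ²` such that every line which meets the closed unit disc meets one of them have total
length at least `π (2 + √3) / 3`.  Proof as in `Lib/OT/Spec.lean` (five directions), with the directions `k π / 6`.
-/

set_option autoImplicit false

namespace Pool.Agent.OT6

open MeasureTheory Set Pool.Agent.OQ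

noncomputable section

/-- The facts about the support values: `x (12 i + k)`, `i < 3`, `k < 12`, is the support value of the curve `i` in the
direction `θ + k π / 6`; the curve `c k` meets the line `pj (θ + k π / 6) = 1`. -/
structure Fct (x : ℕ → ℝ) (c : ℕ → ℕ) : Prop where
  conv : ∀ i < 3, ∀ k < 12,
    0 ≤ x (12 * i + (k + 11) % 12) + x (12 * i + (k + 1) % 12) - √3 * x (12 * i + k)
  wid : ∀ i < 3, ∀ k < 6, 0 ≤ x (12 * i + k) + x (12 * i + k + 6)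
  two : ∀ k < 6, 2 ≤ x k + x (k + 6) + x (k + 12) + x (k + 18) + x (k + 24) + x (k + 30)
  lt : ∀ k < 12, c k < 3
  cov : ∀ k < 12, 1 ≤ x (12 * c k + k)
  ovl : ∀ k < 6, c k ≠ c (k + 6) →
    0 ≤ x (12 * c (k + 6) + k) + x (12 * c k + k + 6) ∨
    (0 ≤ x (12 * c (k + 6) + k) + x (12 * (3 - c k - c (k + 6)) + k + 6) ∧
      0 ≤ x (12 * (3 - c k - c (k + 6)) + k) + x (12 * c k + k + 6))

/-- The part of the curve `i` of the linear form. -/
def gg (x : ℕ → ℝ) (i s : ℕ) : ℝ :=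
  2 * ∑ k ∈ Finset.range 6, (x (12 * i + k) + x (12 * i + k + 6)) -
    2 * (x (12 * i + s) + x (12 * i + s + 6)) -
    2 * (x (12 * i + (s + 1) % 6) + x (12 * i + (s + 1) % 6 + 6))

/-- **Cert.** The computer part. -/
def S_Cert : Prop := ∀ (x : ℕ → ℝ) (c : ℕ → ℕ), Fct x c → ∀ s1 < 6, ∀ s2 < 6,
  8 + 4 * √3 ≤ gg x 0 0 + gg x 1 s1 + gg x 2 s2

/-- The theorem. -/
def S_Main3 : Prop := ∀ γ₁ γ₂ γ₃ : ℝ → EuclideanSpace ℝ (Fin 2),
  ContinuousOn γ₁ (Icc 0 1) → ContinuousOn γ₂ (Icc 0 1) → ContinuousOn γ₃ (Icc 0 1) →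
  (∀ l : AffineSubspace ℝ (EuclideanSpace ℝ (Fin 2)), Module.finrank ℝ l.direction = 1 →
    (∃ x ∈ l, ‖x‖ ≤ 1) → ∃ t ∈ Icc (0 : ℝ) 1, γ₁ t ∈ l ∨ γ₂ t ∈ l ∨ γ₃ t ∈ l) →
  ENNReal.ofReal (Real.pi * (2 + √3) / 3) ≤
    eVariationOn γ₁ (Icc 0 1) + eVariationOn γ₂ (Icc 0 1) + eVariationOn γ₃ (Icc 0 1)

end

end Pool.Agent.OT6
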