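import Pool.Agent.Lib.OT6.Defs
import Pool.Agent.Lib.OT6.Spec

/-!
# Three curves that meet all lines through the disc (MP_721d21): from the certificates to the claim
-/

set_option autoImplicit false

namespace Pool.Agent.OT6.G

noncomputable section

/-- The vector of the variables. -/
def xv (H : Fin 3 → ℕ → ℝ) (j : ℕ) : ℝ :=
  if h : j / 12 < 3 then H ⟨j / 12, h⟩ (j % 12) else 0

theorem xv_eq (H : Fin 3 → ℕ → ℝ) (i : Fin 3) (k : ℕ) (hk : k < 12) :
    xv H (12 * i.val + k) = H i k := by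
  have h1 : (12 * i.val + k) / 12 = i.val := by omega
  have h2 : (12 * i.val + k) % 12 = k := by omega
  unfold xv
  rw [dif_pos (by rw [h1]; exact i.isLt)]
  congr 1
  · exact Fin.ext h1

theorem per_mod {H : Fin 3 → ℕ → ℝ} (hp : ∀ i k, H i (k + 12) = H i k) (i : Fin 3) (k : ℕ) :
    H i (k % 12) = H i k := by
  have h : Function.Periodic (H i) 12 := hp i
  exact h.map_mod_nat k

theorem fct_bridge {H : Fin 3 → ℕ → ℝ} {c : ℕ → Fin 3} (h : Fct H c) :
    Pool.Agent.OT6.Fct (xv H) (fun k => (c k).val) := by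
  have hx : ∀ (i : Fin 3) (k : ℕ), k < 12 → xv H (12 * i.val + k) = H i k := fun i k hk => xv_eq H i k hk
  refine ⟨?_, ?_, ?_, ?_, ?_, ?_⟩
  · intro i hi k hk
    have e1 := hx ⟨i, hi⟩ ((k + 11) % 12) (Nat.mod_lt _ (by norm_num))
    have e2 := hx ⟨i, hi⟩ ((k + 1) % 12) (Nat.mod_lt _ (by norm_num))
    have e3 := hx ⟨i, hi⟩ k hk
    simp only at e1 e2 e3
    rw [e1, e2, e3, per_mod h.per, per_mod h.per]
    have h1 := h.conv ⟨i, hi⟩ (k + 11)
    have h2 := h.per ⟨i, hi⟩ k
    have h3 := h.per ⟨i, hi⟩ (k + 1)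
    rw [show k + 11 + 1 = k + 12 by ring, show k + 11 + 2 = k + 1 + 12 by ring, h2, h3] at h1
    linarith
  · intro i hi k hk
    have e1 := hx ⟨i, hi⟩ k (by omega)
    have e2 := hx ⟨i, hi⟩ (k + 6) (by omega)
    simp only at e1 e2
    rw [e1, show 12 * i + k + 6 = 12 * i + (k + 6) by ring, e2]
    exact h.wid ⟨i, hi⟩ k
  · intro k hk
    have e0 := hx 0 k (by omega)
    have e1 := hx 0 (k + 6) (by omega)
    have e2 := hx 1 k (by omega)
    have e3 := hx 1 (k + 6) (by omega)
    have e4 := hx 2 k (by omega)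
    have e5 := hx 2 (k + 6) (by omega)
    simp only [Fin.val_zero, Fin.val_one, Fin.val_two] at e0 e1 e2 e3 e4 e5
    rw [show 12 * 0 + k = k by ring] at e0
    rw [show 12 * 0 + (k + 6) = k + 6 by ring] at e1
    rw [show 12 * 1 + k = k + 12 by ring] at e2
    rw [show 12 * 1 + (k + 6) = k + 18 by ring] at e3
    rw [show 12 * 2 + k = k + 24 by ring] at e4
    rw [show 12 * 2 + (k + 6) = k + 30 by ring] at e5
    rw [e0, e1, e2, e3, e4, e5]
    linarith [h.cov k]
  · intro k _
    exact (c k).isLt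
  · intro k hk
    rw [hx (c k) k hk]
    exact h.tan k
  · intro k hk hne
    have hne' : c k ≠ c (k + 6) := fun e => hne (congrArg Fin.val e)
    have hl : 3 - (c k).val - (c (k + 6)).val < 3 := by
      have := (c k).isLt
      have := (c (k + 6)).isLt
      have : (c k).val ≠ (c (k + 6)).val := hne
      omega
    have e1 := hx (c (k + 6)) k (by omega)
    have e2 := hx (c k) (k + 6) (by omega)
    have e3 := hx ⟨_, hl⟩ k (by omega)
    have e4 := hx ⟨_, hl⟩ (k + 6) (by omega)
    simp only at e1 e2 e3 e4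
    rw [show 12 * (c k).val + k + 6 = 12 * (c k).val + (k + 6) by ring,
      show 12 * (3 - (c k).val - (c (k + 6)).val) + k + 6 =
        12 * (3 - (c k).val - (c (k + 6)).val) + (k + 6) by ring, e1, e2, e3, e4]
    apply h.ovl k hne'
    · intro e
      have e' := congrArg Fin.val e
      simp only at e'
      have := (c k).isLt
      have := (c (k + 6)).isLt
      have : (c k).val ≠ (c (k + 6)).val := hne
      omega
    · intro e
      have e' := congrArg Fin.val e
      simp only at e'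
      have := (c k).isLt
      have := (c (k + 6)).isLt
      have : (c k).val ≠ (c (k + 6)).val := hne
      omega

theorem bridge (hC : Pool.Agent.OT6.S_Cert) : S_Cert := by
  intro H c h s₁ s₂ h1 h2
  have hc := hC (xv H) (fun k => (c k).val) (fct_bridge h) s₁ h1 s₂ h2
  have hx : ∀ (i : Fin 3) (k : ℕ), k < 12 → xv H (12 * i.val + k) = H i k := fun i k hk => xv_eq H i k hk
  have hw : ∀ (i : Fin 3) (s : ℕ), s < 6 →
      H i ((s + 1) % 6) + H i ((s + 1) % 6 + 6) = H i (s + 1) + H i (s + 1 + 6) := by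
    intro i s hs
    by_cases h5 : s = 5
    · subst h5
      have := h.per i 0
      norm_num at this ⊢
      rw [this]
      ring
    · rw [Nat.mod_eq_of_lt (by omega)]
  have g : ∀ (i : Fin 3) (s : ℕ), s < 6 → Pool.Agent.OT6.gg (xv H) i.val s =
      2 * ∑ k ∈ Finset.range 6, (H i k + H i (k + 6)) - 2 * (H i s + H i (s + 6)) -
        2 * (H i (s + 1) + H i (s + 1 + 6)) := by
    intro i s hs
    have hs1 : (s + 1) % 6 < 6 := Nat.mod_lt _ (by norm_num)
    unfold Pool.Agent.OT6.gg
    rw [hx i s (by omega), show 12 * i.val + s + 6 = 12 * i.val + (s + 6) by ring, hx i (s + 6) (by omega),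
      hx i ((s + 1) % 6) (by omega), show 12 * i.val + (s + 1) % 6 + 6 = 12 * i.val + ((s + 1) % 6 + 6) by ring,
      hx i ((s + 1) % 6 + 6) (by omega), hw i s hs]
    congr 3
    refine Finset.sum_congr rfl fun k hk => ?_
    have hk' : k < 6 := Finset.mem_range.1 hk
    rw [hx i k (by omega), show 12 * i.val + k + 6 = 12 * i.val + (k + 6) by ring, hx i (k + 6) (by omega)]
  have g0 := g 0 0 (by norm_num)
  have g1 := g 1 s₁ h1
  have g2 := g 2 s₂ h2
  simp only [Fin.val_zero, Fin.val_one, Fin.val_two, zero_add] at g0 g1 g2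
  rw [g0, g1, g2] at hc
  have e : ∑ k ∈ Finset.range 6, ((H 0 k + H 0 (k + 6)) + (H 1 k + H 1 (k + 6)) + (H 2 k + H 2 (k + 6))) =
      ∑ k ∈ Finset.range 6, (H 0 k + H 0 (k + 6)) + ∑ k ∈ Finset.range 6, (H 1 k + H 1 (k + 6)) +
      ∑ k ∈ Finset.range 6, (H 2 k + H 2 (k + 6)) := by
    rw [← Finset.sum_add_distrib, ← Finset.sum_add_distrib]
  rw [e]
  norm_num at hc ⊢
  linarith

end

end Pool.Agent.OT6.G
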