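import Pool.Agent.Lib.OT6.Defs
import Pool.Agent.Lib.OQ.Sgn

/-!
# Three curves that meet all lines through the disc (MP_721d21): the inequality for twelve directions
-/

set_option autoImplicit false

namespace Pool.Agent.OT6.G

open Pool.Agent.OQ MeasureTheory Set

noncomputable section

namespace GeoM

/-- The width of the curve `γ` in the direction `θ`. -/
def wd (γ : ℝ → E2) (θ : ℝ) : ℝ := sp γ θ + sp γ (θ + Real.pi)

theorem sp_conv {γ : ℝ → E2} (hγ : ContinuousOn γ (Icc 0 1)) (φ : ℝ) :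
    √3 * sp γ (φ + Real.pi / 6) ≤ sp γ φ + sp γ (φ + 2 * (Real.pi / 6)) := by
  obtain ⟨t, ht, h⟩ := exists_sp hγ (φ + Real.pi / 6)
  have h1 := SgnM.pj_step φ (γ t)
  have h2 := le_sp hγ φ ht
  have h3 := le_sp hγ (φ + 2 * (Real.pi / 6)) ht
  rw [← h]
  linarith

theorem wd_nonneg {γ : ℝ → E2} (hγ : ContinuousOn γ (Icc 0 1)) (φ : ℝ) : 0 ≤ wd γ φ := by
  have h0 : (0 : ℝ) ∈ Icc (0 : ℝ) 1 := ⟨le_rfl, zero_le_one⟩
  have h1 := le_sp hγ φ h0
  have h2 := neg_sp_le hγ φ h0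
  unfold wd
  linarith

theorem chord_le {γ : ℝ → E2} (hγ : ContinuousOn γ (Icc 0 1)) (φ : ℝ) :
    |pj φ (γ 1 - γ 0)| ≤ wd γ φ := by
  have h0 : (0 : ℝ) ∈ Icc (0 : ℝ) 1 := ⟨le_rfl, zero_le_one⟩
  have h1 : (1 : ℝ) ∈ Icc (0 : ℝ) 1 := ⟨zero_le_one, le_rfl⟩
  have a1 := le_sp hγ φ h0
  have a2 := neg_sp_le hγ φ h0
  have b1 := le_sp hγ φ h1
  have b2 := neg_sp_le hγ φ h1
  unfold wd
  rw [pj_sub, abs_le]
  constructor <;> linarith

theorem pj_two_pi (φ : ℝ) (n : ℕ) (x : E2) : pj (φ + n * (2 * Real.pi)) x = pj φ x := by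
  simp only [pj, Real.cos_add_nat_mul_two_pi, Real.sin_add_nat_mul_two_pi]

theorem sp_two_pi (γ : ℝ → E2) (φ : ℝ) (n : ℕ) : sp γ (φ + n * (2 * Real.pi)) = sp γ φ := by
  simp only [sp, pj_two_pi]

/-- Support values in the directions `θ + k π / 6`. -/
def hh (γ : ℝ → E2) (θ : ℝ) (k : ℕ) : ℝ := sp γ (θ + k * (Real.pi / 6))

theorem hh_add (γ : ℝ → E2) (θ : ℝ) (k : ℕ) : hh γ θ (k + 12) = hh γ θ k := by
  have h := sp_two_pi γ (θ + k * (Real.pi / 6)) 1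
  unfold hh
  rw [← h]
  congr 1
  push_cast
  ring

theorem hh_mod (γ : ℝ → E2) (θ : ℝ) (k : ℕ) : hh γ θ (k % 12) = hh γ θ k := by
  have hp : Function.Periodic (hh γ θ) 12 := hh_add γ θ
  exact hp.map_mod_nat k

/-- Widths in the directions `θ + k π / 6`. -/
def ww (γ : ℝ → E2) (θ : ℝ) (k : ℕ) : ℝ := wd γ (θ + k * (Real.pi / 6))

theorem hh_wd (γ : ℝ → E2) (θ : ℝ) (k : ℕ) : hh γ θ k + hh γ θ (k + 6) = ww γ θ k := by
  unfold hh ww wd
  congr 2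
  push_cast
  ring

theorem ww_add (γ : ℝ → E2) (θ : ℝ) (k : ℕ) : ww γ θ (k + 6) = ww γ θ k := by
  rw [← hh_wd, ← hh_wd, show k + 6 + 6 = k + 12 by ring, hh_add]
  ring

variable {g : Fin 3 → ℝ → E2} (hg : ∀ b, ContinuousOn (g b) (Icc 0 1))
  (hc : ∀ θ p : ℝ, |p| ≤ 1 → ∃ b, ∃ t ∈ Icc (0 : ℝ) 1, pj θ (g b t) = p)

/-- The choice of the curve that meets the tangent line of the direction `θ + k π / 6`. -/
def cc (θ : ℝ) (k : ℕ) : Fin 3 :=
  Classical.choose (hc (θ + ((k % 12 : ℕ) : ℝ) * (Real.pi / 6)) 1 (by norm_num))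

theorem cc_per (θ : ℝ) (k : ℕ) : cc hc θ (k + 12) = cc hc θ k := by
  unfold cc
  congr 1
  rw [Nat.add_mod_right]

theorem cc_spec (θ : ℝ) (k : ℕ) :
    ∃ t ∈ Icc (0 : ℝ) 1, pj (θ + k * (Real.pi / 6)) (g (cc hc θ k) t) = 1 := by
  have h := Classical.choose_spec (hc (θ + ((k % 12 : ℕ) : ℝ) * (Real.pi / 6)) 1 (by norm_num))
  obtain ⟨t, ht, he⟩ := h
  refine ⟨t, ht, ?_⟩
  have e1 : pj (θ + k * (Real.pi / 6)) (g (cc hc θ k) t) =
      pj (θ + ((k % 12 : ℕ) : ℝ) * (Real.pi / 6)) (g (cc hc θ k) t) := by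
    rw [← pj_two_pi (θ + ((k % 12 : ℕ) : ℝ) * (Real.pi / 6)) (k / 12)]
    congr 1
    have h12 : (k : ℝ) = ((k % 12 : ℕ) : ℝ) + 12 * ((k / 12 : ℕ) : ℝ) := by
      exact_mod_cast (Nat.mod_add_div k 12).symm
    conv_lhs => rw [h12]
    ring
  rw [e1]
  exact he

include hg in
theorem hh_cov (θ : ℝ) (k : ℕ) : 1 ≤ hh (g (cc hc θ k)) θ k := by
  obtain ⟨t, ht, h⟩ := cc_spec hc θ k
  have := le_sp (hg (cc hc θ k)) (θ + k * (Real.pi / 6)) ht
  rw [h] at this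
  exact this

include hg in
theorem hh_ovl (θ : ℝ) (k : ℕ) (hne : cc hc θ k ≠ cc hc θ (k + 6)) (l : Fin 3)
    (hl : l ≠ cc hc θ k) (hl' : l ≠ cc hc θ (k + 6)) :
    0 ≤ hh (g (cc hc θ (k + 6))) θ k + hh (g (cc hc θ k)) θ (k + 6) ∨
      (0 ≤ hh (g (cc hc θ (k + 6))) θ k + hh (g l) θ (k + 6) ∧
        0 ≤ hh (g l) θ k + hh (g (cc hc θ k)) θ (k + 6)) := by
  obtain ⟨t, ht, h⟩ := cc_spec hc θ k
  obtain ⟨s, hs, h'⟩ := cc_spec hc θ (k + 6)
  have hang : θ + ((k + 6 : ℕ) : ℝ) * (Real.pi / 6) = θ + k * (Real.pi / 6) + Real.pi := by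
    push_cast; ring
  rw [hang, pj_add_pi] at h'
  unfold hh
  rw [hang]
  generalize cc hc θ k = i at *
  generalize cc hc θ (k + 6) = j at *
  generalize θ + (k : ℝ) * (Real.pi / 6) = φ at *
  by_contra hcon
  rw [not_or, not_and_or, not_le, not_le, not_le] at hcon
  obtain ⟨h1, h2⟩ := hcon
  have b1 := le_sp (hg j) φ hs
  have a1 := neg_sp_le (hg i) φ ht
  rw [h] at a1
  have hcase : ∀ b : Fin 3, b = i ∨ b = j ∨ b = l := by
    intro b
    revert hne hl hl'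
    clear * -
    revert b i j l
    decide
  rcases h2 with h2 | h2
  · -- a point just to the right of the interval of `j`
    obtain ⟨q, hq1, hq2, hq3⟩ : ∃ q, sp (g j) φ < q ∧ q < -sp (g i) (φ + Real.pi) ∧
        q < -sp (g l) (φ + Real.pi) := by
      obtain ⟨q, hq, hq'⟩ := exists_between (show sp (g j) φ <
        min (-sp (g i) (φ + Real.pi)) (-sp (g l) (φ + Real.pi)) by
          rw [lt_min_iff]; constructor <;> linarith)
      rw [lt_min_iff] at hq'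
      exact ⟨q, hq, hq'.1, hq'.2⟩
    obtain ⟨b, r, hr, hb⟩ := hc φ q (by rw [abs_le]; constructor <;> linarith)
    rcases hcase b with rfl | rfl | rfl
    · have := neg_sp_le (hg b) φ hr
      linarith
    · have := le_sp (hg b) φ hr
      linarith
    · have := neg_sp_le (hg b) φ hr
      linarith
  · obtain ⟨q, hq1, hq2, hq3⟩ : ∃ q, q < -sp (g i) (φ + Real.pi) ∧ sp (g j) φ < q ∧
        sp (g l) φ < q := by
      obtain ⟨q, hq, hq'⟩ := exists_between (show max (sp (g j) φ) (sp (g l) φ) <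
        -sp (g i) (φ + Real.pi) by rw [max_lt_iff]; constructor <;> linarith)
      rw [max_lt_iff] at hq
      exact ⟨q, hq', hq.1, hq.2⟩
    obtain ⟨b, r, hr, hb⟩ := hc φ q (by rw [abs_le]; constructor <;> linarith)
    rcases hcase b with rfl | rfl | rfl
    · have := neg_sp_le (hg b) φ hr
      linarith
    · have := le_sp (hg b) φ hr
      linarith
    · have := le_sp (hg b) φ hr
      linarith

include hg hc in
theorem two_le (φ : ℝ) : 2 ≤ wd (g 0) φ + wd (g 1) φ + wd (g 2) φ := by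
  have hsub : Icc (-1 : ℝ) 1 ⊆ ⋃ i : Fin 3, Icc (-sp (g i) (φ + Real.pi)) (sp (g i) φ) := by
    intro p hp
    obtain ⟨b, r, hr, hb⟩ := hc φ p (abs_le.2 hp)
    rw [mem_iUnion]
    refine ⟨b, ?_, ?_⟩
    · rw [← hb]; exact neg_sp_le (hg b) φ hr
    · rw [← hb]; exact le_sp (hg b) φ hr
  have h1 := (measure_mono hsub).trans (measure_iUnion_fintype_le volume _)
  rw [Real.volume_Icc, Fin.sum_univ_three, Real.volume_Icc, Real.volume_Icc, Real.volume_Icc] at h1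
  have w0 := wd_nonneg (hg 0) φ
  have w1 := wd_nonneg (hg 1) φ
  have w2 := wd_nonneg (hg 2) φ
  have e : ∀ i : Fin 3, sp (g i) φ - -sp (g i) (φ + Real.pi) = wd (g i) φ := by
    intro i; unfold wd; ring
  rw [e, e, e, ← ENNReal.ofReal_add w0 w1, ← ENNReal.ofReal_add (add_nonneg w0 w1) w2,
    ENNReal.ofReal_le_ofReal_iff (by positivity)] at h1
  linarith

include hg in
theorem fct (θ : ℝ) : Fct (fun i k => hh (g i) θ k) (cc hc θ) := by
  refine ⟨fun i k => hh_add _ _ _, fun i k => ?_, fun i k => ?_, fun k => ?_, fun k => hh_cov hg hc θ k,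
    fun k => cc_per hc θ k, fun k hne l hl hl' => hh_ovl hg hc θ k hne l hl hl'⟩
  · have h := sp_conv (hg i) (θ + k * (Real.pi / 6))
    unfold hh
    rw [show θ + ((k + 1 : ℕ) : ℝ) * (Real.pi / 6) = θ + k * (Real.pi / 6) + Real.pi / 6 by
      push_cast; ring, show θ + ((k + 2 : ℕ) : ℝ) * (Real.pi / 6) =
      θ + k * (Real.pi / 6) + 2 * (Real.pi / 6) by push_cast; ring]
    exact h
  · change 0 ≤ hh (g i) θ k + hh (g i) θ (k + 6)
    rw [hh_wd]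
    exact wd_nonneg (hg i) _
  · change 2 ≤ (hh (g 0) θ k + hh (g 0) θ (k + 6)) + (hh (g 1) θ k + hh (g 1) θ (k + 6)) +
      (hh (g 2) θ k + hh (g 2) θ (k + 6))
    rw [hh_wd, hh_wd, hh_wd]
    exact two_le hg hc _

/-- Sums over six consecutive directions. -/
theorem sum_shift (w : ℕ → ℝ) (hw : ∀ k, w (k + 6) = w k) (m : ℕ) :
    ∑ k ∈ Finset.range 6, w (m + k) = ∑ k ∈ Finset.range 6, w k := by
  induction m with
  | zero => simp
  | succ m ih =>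
    rw [← ih]
    simp only [Finset.sum_range_succ, Finset.sum_range_zero, zero_add]
    have h := hw m
    rw [show m + 1 + 0 = m + 1 by ring, show m + 1 + 1 = m + 2 by ring, show m + 1 + 2 = m + 3 by ring,
      show m + 1 + 3 = m + 4 by ring, show m + 1 + 4 = m + 5 by ring, show m + 1 + 5 = m + 6 by ring, h,
      show m + 0 = m from rfl]
    ring

include hg hc in
theorem wd_ineq (hC : S_Cert) (θ : ℝ) (s₀ s₁ s₂ : ℕ) (h0 : s₀ < 6) (h1 : s₁ < 6) (h2 : s₂ < 6) :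
    2 * ((ww (g 0) θ s₀ + ww (g 0) θ (s₀ + 1)) + (ww (g 1) θ s₁ + ww (g 1) θ (s₁ + 1)) +
      (ww (g 2) θ s₂ + ww (g 2) θ (s₂ + 1))) + (8 + 4 * √3) ≤
      2 * ∑ k ∈ Finset.range 6, (ww (g 0) θ k + ww (g 1) θ k + ww (g 2) θ k) := by
  have h := hC _ _ (fct hg hc (θ + s₀ * (Real.pi / 6))) ((s₁ + 6 - s₀) % 6) ((s₂ + 6 - s₀) % 6)
    (Nat.mod_lt _ (by norm_num)) (Nat.mod_lt _ (by norm_num))
  have hz : ∀ b : Fin 3, hh (g b) (θ + s₀ * (Real.pi / 6)) 0 +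
      hh (g b) (θ + s₀ * (Real.pi / 6)) 6 = ww (g b) (θ + s₀ * (Real.pi / 6)) 0 := fun b =>
    hh_wd (g b) (θ + s₀ * (Real.pi / 6)) 0
  have hz1 : ∀ b : Fin 3, hh (g b) (θ + s₀ * (Real.pi / 6)) 1 +
      hh (g b) (θ + s₀ * (Real.pi / 6)) 7 = ww (g b) (θ + s₀ * (Real.pi / 6)) 1 := fun b =>
    hh_wd (g b) (θ + s₀ * (Real.pi / 6)) 1
  simp only [hh_wd, hz, hz1] at h
  have e : ∀ (b : Fin 3) (k : ℕ), ww (g b) (θ + s₀ * (Real.pi / 6)) k = ww (g b) θ (s₀ + k) := by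
    intro b k
    unfold ww
    congr 1
    push_cast
    ring
  simp only [e] at h
  have hp : ∀ b : Fin 3, Function.Periodic (ww (g b) θ) 6 := fun b => ww_add (g b) θ
  have hsh : ∀ (b : Fin 3) (s : ℕ), s < 6 → ww (g b) θ (s₀ + (s + 6 - s₀) % 6) = ww (g b) θ s := by
    intro b s hs
    rw [← (hp b).map_mod_nat, ← (hp b).map_mod_nat s]
    congr 1
    omega
  have hsh1 : ∀ (b : Fin 3) (s : ℕ), s < 6 →
      ww (g b) θ (s₀ + ((s + 6 - s₀) % 6 + 1)) = ww (g b) θ (s + 1) := by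
    intro b s hs
    rw [← (hp b).map_mod_nat, ← (hp b).map_mod_nat (s + 1)]
    congr 1
    omega
  rw [hsh 1 s₁ h1, hsh 2 s₂ h2, hsh1 1 s₁ h1, hsh1 2 s₂ h2, add_zero] at h
  have hsum := sum_shift (fun k => ww (g 0) θ k + ww (g 1) θ k + ww (g 2) θ k)
    (fun k => by simp only [ww_add]) s₀
  rw [hsum] at h
  exact h

end GeoM

open GeoM in
/-- The inequality for six directions. -/
theorem geoP (hC : S_Cert) (hS : Pool.Agent.OQ.S_Sgn) : S_Dir := by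
  intro g hg hc θ
  have key : ∀ b : Fin 3, ∃ s : ℕ, s < 6 ∧ 2 * ∑ k ∈ Finset.range 6, ww (g b) θ k -
      2 * (ww (g b) θ s + ww (g b) θ (s + 1)) ≤
      ∑ k ∈ Finset.range 6, (2 * (sp (g b) (θ + k * (Real.pi / 6)) +
      sp (g b) (θ + k * (Real.pi / 6) + Real.pi)) - |pj (θ + k * (Real.pi / 6)) (g b 1 - g b 0)|) := by
    intro b
    obtain ⟨s, hs, h⟩ := hS θ (g b 1 - g b 0)
    refine ⟨s, hs, ?_⟩
    rw [Finset.sum_sub_distrib, ← Finset.mul_sum]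
    have h1 := chord_le (hg b) (θ + s * (Real.pi / 6))
    have h2 := chord_le (hg b) (θ + (s + 1 : ℕ) * (Real.pi / 6))
    have h3 : θ + ((s : ℝ) + 1) * (Real.pi / 6) = θ + ((s + 1 : ℕ) : ℝ) * (Real.pi / 6) := by
      push_cast; ring
    rw [h3] at h
    unfold ww
    unfold wd at h1 h2 ⊢
    linarith
  obtain ⟨s₀, hs0, h0⟩ := key 0
  obtain ⟨s₁, hs1, h1⟩ := key 1
  obtain ⟨s₂, hs2, h2⟩ := key 2
  have := wd_ineq hg hc hC θ s₀ s₁ s₂ hs0 hs1 hs2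
  rw [Finset.sum_add_distrib, Finset.sum_add_distrib] at this
  rw [Fin.sum_univ_three]
  linarith

end

end Pool.Agent.OT6.G
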