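import Pool.Agent.Lib.OT6.Defs

/-!
# Three curves that meet all lines through the disc (MP_721d21): the theorem
-/

set_option autoImplicit false

namespace Pool.Agent.OT6.G

open MeasureTheory Set Pool.Agent.OQ

noncomputable section

namespace MainM

theorem norm_pt (p θ : ℝ) : ‖(!₂[p * Real.cos θ, p * Real.sin θ] : E2)‖ = |p| := by
  rw [EuclideanSpace.norm_eq, Fin.sum_univ_two]
  simp only [Matrix.cons_val_zero, Matrix.cons_val_one, Real.norm_eq_abs, sq_abs]
  rw [← Real.sqrt_sq_eq_abs]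
  congr 1
  linear_combination p ^ 2 * Real.sin_sq_add_cos_sq θ

theorem dir_ne (θ : ℝ) : (!₂[-Real.sin θ, Real.cos θ] : E2) ≠ 0 := by
  intro h
  have h0 : -Real.sin θ = 0 := congrArg (fun x : E2 => x 0) h
  have h1 : Real.cos θ = 0 := congrArg (fun x : E2 => x 1) h
  have h2 := Real.sin_sq_add_cos_sq θ
  rw [neg_eq_zero.1 h0, h1] at h2
  norm_num at h2

/-- From lines to projections. -/
theorem proj_of_lines {g : Fin 3 → ℝ → E2}
    (hD : ∀ l : AffineSubspace ℝ E2, Module.finrank ℝ l.direction = 1 →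
      (∃ x ∈ l, ‖x‖ ≤ 1) → ∃ b, ∃ t ∈ Icc (0 : ℝ) 1, g b t ∈ l) (θ p : ℝ) (hp : |p| ≤ 1) :
    ∃ b, ∃ t ∈ Icc (0 : ℝ) 1, pj θ (g b t) = p := by
  obtain ⟨b, t, ht, hl⟩ := hD (AffineSubspace.mk' (!₂[p * Real.cos θ, p * Real.sin θ] : E2)
    (Submodule.span ℝ {(!₂[-Real.sin θ, Real.cos θ] : E2)})) (by
      rw [AffineSubspace.direction_mk']
      exact finrank_span_singleton (dir_ne θ))
    ⟨_, AffineSubspace.self_mem_mk' _ _, by rw [norm_pt]; exact hp⟩
  refine ⟨b, t, ht, ?_⟩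
  rw [AffineSubspace.mem_mk', Submodule.mem_span_singleton] at hl
  obtain ⟨c, hc⟩ := hl
  have h0 : c * -Real.sin θ = g b t 0 - p * Real.cos θ := congrArg (fun x : E2 => x 0) hc
  have h1 : c * Real.cos θ = g b t 1 - p * Real.sin θ := congrArg (fun x : E2 => x 1) hc
  have e0 : g b t 0 = p * Real.cos θ - c * Real.sin θ := by linarith
  have e1 : g b t 1 = c * Real.cos θ + p * Real.sin θ := by linarith
  show g b t 0 * Real.cos θ + g b t 1 * Real.sin θ = p
  rw [e0, e1]
  linear_combination p * Real.sin_sq_add_cos_sq θ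

/-- Average over the rotations. -/
theorem avg (f : ℝ → ℝ) (hf : Continuous f) (hp : ∀ θ, f (θ + Real.pi) = f θ) (m : ℝ)
    (h : ∀ θ, m ≤ ∑ k ∈ Finset.range 6, f (θ + k * (Real.pi / 6))) :
    Real.pi * m ≤ 6 * ∫ θ in (0 : ℝ)..Real.pi, f θ := by
  have h1 : ∀ k : ℕ, ∫ θ in (0 : ℝ)..Real.pi, f (θ + k * (Real.pi / 6)) =
      ∫ θ in (0 : ℝ)..Real.pi, f θ := by
    intro k
    rw [intervalIntegral.integral_comp_add_right f, zero_add, add_comm Real.pi]
    have hper : Function.Periodic f Real.pi := hp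
    have := hper.intervalIntegral_add_eq (k * (Real.pi / 6)) 0
    rw [zero_add] at this
    exact this
  have hi : ∀ k ∈ Finset.range 6, IntervalIntegrable (fun θ => f (θ + (k : ℕ) * (Real.pi / 6))) volume 0 Real.pi :=
    fun k _ => (hf.comp (continuous_id.add continuous_const)).intervalIntegrable _ _
  have h2 : ∫ θ in (0 : ℝ)..Real.pi, ∑ k ∈ Finset.range 6, f (θ + k * (Real.pi / 6)) =
      6 * ∫ θ in (0 : ℝ)..Real.pi, f θ := by
    rw [intervalIntegral.integral_finsetSum hi]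
    simp only [h1]
    rw [Finset.sum_const, Finset.card_range, nsmul_eq_mul]
    norm_num
  rw [← h2]
  have h3 : ∫ _θ in (0 : ℝ)..Real.pi, m = Real.pi * m := by
    rw [intervalIntegral.integral_const, sub_zero, smul_eq_mul]
  rw [← h3]
  apply intervalIntegral.integral_mono_on Real.pi_pos.le
  · exact continuous_const.intervalIntegrable _ _
  · exact (continuous_finsetSum _ fun k _ => hf.comp (continuous_id.add continuous_const)).intervalIntegrable _ _
  · exact fun θ _ => h θ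

theorem real_bound (hV : Pool.Agent.OQ.S_Var) (hDir : S_Dir) {g : Fin 3 → ℝ → E2}
    (hg : ∀ b, ContinuousOn (g b) (Icc 0 1))
    (hc : ∀ θ p : ℝ, |p| ≤ 1 → ∃ b, ∃ t ∈ Icc (0 : ℝ) 1, pj θ (g b t) = p)
    (hfin : ∀ b, eVariationOn (g b) (Icc 0 1) ≠ ⊤) :
    Real.pi * (2 + √3) / 3 ≤ ∑ b, (eVariationOn (g b) (Icc 0 1)).toReal := by
  apply le_of_forall_pos_le_add
  intro ε hε
  have hpi := Real.pi_pos
  have hε' : 0 < ε / Real.pi / 3 * 2 := by positivity
  choose V hVc hVp hVl hVi using fun b => hV (g b) (hg b) (hfin b) _ hε'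
  have hlow : ∀ θ, 8 + 4 * √3 - 12 * (ε / Real.pi) ≤
      ∑ k ∈ Finset.range 6, ∑ b, V b (θ + k * (Real.pi / 6)) := by
    intro θ
    have h := hDir g hg hc θ
    have h2 : ∑ i : Fin 3, ∑ k ∈ Finset.range 6, (2 * (sp (g i) (θ + k * (Real.pi / 6)) +
      sp (g i) (θ + k * (Real.pi / 6) + Real.pi)) - |pj (θ + k * (Real.pi / 6)) (g i 1 - g i 0)|) ≤
      ∑ i : Fin 3, ∑ k ∈ Finset.range 6, (V i (θ + k * (Real.pi / 6)) + ε / Real.pi / 3 * 2) := by
      apply Finset.sum_le_sum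
      intro i _
      apply Finset.sum_le_sum
      intro k _
      have a := hVl i (θ + k * (Real.pi / 6))
      linarith
    have h3 : ∑ i : Fin 3, ∑ k ∈ Finset.range 6, (V i (θ + k * (Real.pi / 6)) + ε / Real.pi / 3 * 2) =
        ∑ k ∈ Finset.range 6, ∑ b, V b (θ + k * (Real.pi / 6)) + 12 * (ε / Real.pi) := by
      rw [Finset.sum_comm]
      simp only [Finset.sum_add_distrib, Finset.sum_const, Finset.card_range, Finset.card_univ,
        Fintype.card_fin, nsmul_eq_mul]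
      push_cast
      ring
    rw [h3] at h2
    linarith
  have h := avg (fun θ => ∑ b, V b θ) (continuous_finsetSum _ fun b _ => hVc b)
    (fun θ => by simp only [hVp]) _ hlow
  rw [intervalIntegral.integral_finsetSum (fun b _ => (hVc b).intervalIntegrable _ _)] at h
  have h5 : ∑ b, ∫ θ in (0 : ℝ)..Real.pi, V b θ ≤
      ∑ b, 2 * (eVariationOn (g b) (Icc 0 1)).toReal := Finset.sum_le_sum fun b _ => hVi b
  rw [← Finset.mul_sum] at h5
  have e : Real.pi * (8 + 4 * √3 - 12 * (ε / Real.pi)) = 8 * Real.pi + 4 * (Real.pi * √3) - 12 * ε := by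
    field_simp
  rw [e] at h
  linarith

end MainM

open MainM in
theorem mainP (hV : Pool.Agent.OQ.S_Var) (hD : S_Dir) : S_Main := by
  intro γ hγ hL
  by_cases hfin : ∀ i, eVariationOn (γ i) (Icc 0 1) ≠ ⊤
  · have h := real_bound hV hD hγ (fun θ p hp => proj_of_lines hL θ p hp) hfin
    have hs : ∑ i, eVariationOn (γ i) (Icc 0 1) ≠ ⊤ := ENNReal.sum_ne_top.2 fun i _ => hfin i
    rw [ENNReal.ofReal_le_iff_le_toReal hs, ENNReal.toReal_sum fun i _ => hfin i]
    exact h
  · push Not at hfin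
    obtain ⟨i, hi⟩ := hfin
    have hs : ∑ i, eVariationOn (γ i) (Icc 0 1) = ⊤ :=
      ENNReal.sum_eq_top.2 ⟨i, Finset.mem_univ i, hi⟩
    rw [hs]
    exact le_top

end

end Pool.Agent.OT6.G
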