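import Pool.Agent.Lib.OQ.Var
import Pool.Agent.Lib.OT6.Main
import Pool.Agent.Lib.OT6.Geo
import Pool.Agent.Lib.OT6.Bridge

/-!
# Three curves that meet all lines through the disc (MP_721d21), six directions: the theorem from the certificates
-/

set_option autoImplicit false

namespace Pool.Agent.OT6

open MeasureTheory Set Pool.Agent.OQ

noncomputable section

theorem three (h : S_Cert) : G.S_Main := G.mainP varP (G.geoP (G.bridge h) sgnP)

theorem main3 (h : S_Cert) : S_Main3 := by
  intro γ₁ γ₂ γ₃ h₁ h₂ h₃ hl
  have hm := three h (fun i => if i = 0 then γ₁ else if i = 1 then γ₂ else γ₃)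
    (by
      intro i
      fin_cases i
      · exact h₁
      · exact h₂
      · exact h₃)
    (by
      intro l hd hx
      obtain ⟨t, ht, a | a | a⟩ := hl l hd hx
      · exact ⟨0, t, ht, a⟩
      · exact ⟨1, t, ht, a⟩
      · exact ⟨2, t, ht, a⟩)
  rw [Fin.sum_univ_three] at hm
  exact hm

end

end Pool.Agent.OT6
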