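import Pool.Agent.Lib.OQ.Defs

/-!
# Three curves that meet all lines through the disc (MP_721d21), six directions: the linear facts
-/

set_option autoImplicit false

namespace Pool.Agent.OT6.G

open Pool.Agent.OQ

noncomputable section

/-- The linear facts on the support values `H i k` of the curve `i` in the direction `θ + k π / 6`; the curve
`c k` meets the tangent line of the direction number `k`. -/
structure Fct (H : Fin 3 → ℕ → ℝ) (c : ℕ → Fin 3) : Prop where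
  per : ∀ i k, H i (k + 12) = H i k
  conv : ∀ i k, √3 * H i (k + 1) ≤ H i k + H i (k + 2)
  wid : ∀ i k, 0 ≤ H i k + H i (k + 6)
  cov : ∀ k, 2 ≤ (H 0 k + H 0 (k + 6)) + (H 1 k + H 1 (k + 6)) + (H 2 k + H 2 (k + 6))
  tan : ∀ k, 1 ≤ H (c k) k
  cper : ∀ k, c (k + 12) = c k
  ovl : ∀ k, c k ≠ c (k + 6) → ∀ l, l ≠ c k → l ≠ c (k + 6) →
    0 ≤ H (c (k + 6)) k + H (c k) (k + 6) ∨
      (0 ≤ H (c (k + 6)) k + H l (k + 6) ∧ 0 ≤ H l k + H (c k) (k + 6))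

/-- The claim of the certificates. -/
def S_Cert : Prop := ∀ (H : Fin 3 → ℕ → ℝ) (c : ℕ → Fin 3), Fct H c → ∀ s₁ s₂ : ℕ, s₁ < 6 → s₂ < 6 →
  2 * (((H 0 0 + H 0 6) + (H 0 1 + H 0 7)) + ((H 1 s₁ + H 1 (s₁ + 6)) + (H 1 (s₁ + 1) + H 1 (s₁ + 1 + 6))) +
    ((H 2 s₂ + H 2 (s₂ + 6)) + (H 2 (s₂ + 1) + H 2 (s₂ + 1 + 6)))) + (8 + 4 * √3) ≤
    2 * ∑ k ∈ Finset.range 6,
      ((H 0 k + H 0 (k + 6)) + (H 1 k + H 1 (k + 6)) + (H 2 k + H 2 (k + 6)))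

/-- The inequality for six directions. -/
def S_Dir : Prop := ∀ g : Fin 3 → ℝ → E2, (∀ i, ContinuousOn (g i) (Set.Icc 0 1)) →
  (∀ θ p : ℝ, |p| ≤ 1 → ∃ i, ∃ t ∈ Set.Icc (0 : ℝ) 1, pj θ (g i t) = p) → ∀ θ : ℝ,
    8 + 4 * √3 ≤ ∑ i : Fin 3, ∑ k ∈ Finset.range 6, (2 * (sp (g i) (θ + k * (Real.pi / 6)) +
      sp (g i) (θ + k * (Real.pi / 6) + Real.pi)) - |pj (θ + k * (Real.pi / 6)) (g i 1 - g i 0)|)

/-- The theorem. -/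
def S_Main : Prop := ∀ γ : Fin 3 → ℝ → EuclideanSpace ℝ (Fin 2), (∀ i, ContinuousOn (γ i) (Set.Icc 0 1)) →
  (∀ l : AffineSubspace ℝ (EuclideanSpace ℝ (Fin 2)), Module.finrank ℝ l.direction = 1 →
    (∃ x ∈ l, ‖x‖ ≤ 1) → ∃ i, ∃ t ∈ Set.Icc (0 : ℝ) 1, γ i t ∈ l) →
  ENNReal.ofReal (Real.pi * (2 + √3) / 3) ≤ ∑ i, eVariationOn (γ i) (Set.Icc 0 1)

end

end Pool.Agent.OT6.G
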